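import Pool.Agent.Helper87.VM.Lib2

/-!
Module YC of the existence theorem on isotrivial VMRT (`MP_39dd1a_ag`): morphisms of small degree
to the blow-up.
-/

set_option autoImplicit false

namespace Pool.Agent.Helper87.VM

open MvPolynomial Pool.Agent.Helper48.VMRT

/-- Two continuous functions equal off zero are equal at zero. -/
theorem yc_zero_of_ne {f g : ℂ → ℂ} (hf : Continuous f) (hg : Continuous g)
    (h : ∀ s, s ≠ 0 → f s = g s) : f = g := by
  apply Continuous.ext_on (s := {s : ℂ | s ≠ 0}) _ hf hg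
  · intro s hs
    exact h s hs
  · exact dense_compl_singleton (0 : ℂ)

theorem yc_continuous_hev (d : ℕ) (p : Polynomial ℂ) (t : ℂ) :
    Continuous fun s => hev d p s t := by
  unfold hev
  fun_prop

/-- The degree of a form in polynomials. -/
theorem yc_natDegree {κ : Type} {a d : ℕ} {F : MvPolynomial κ ℂ} (hF : HomE a F)
    {x : κ → Polynomial ℂ} (hx : ∀ o, (x o).natDegree ≤ d) :
    (aeval x F : Polynomial ℂ).natDegree ≤ a * d := by
  classical
  have hh := isHomogeneous_of_homE hF
  rw [aeval_def, eval₂_eq]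
  refine Polynomial.natDegree_sum_le_of_forall_le _ _ fun m hm => ?_
  have hdeg : m.degree = a := by
    rw [Finsupp.degree_eq_weight_one]
    exact hh (mem_support_iff.1 hm)
  have h1 : (∏ i ∈ m.support, x i ^ m i).natDegree ≤ a * d := by
    refine (Polynomial.natDegree_prod_le _ _).trans ?_
    calc ∑ i ∈ m.support, (x i ^ m i).natDegree ≤ ∑ i ∈ m.support, m i * d := by
          refine Finset.sum_le_sum fun i _ => ?_
          exact (Polynomial.natDegree_pow_le).trans (Nat.mul_le_mul_left _ (hx i))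
      _ = a * d := by rw [← Finset.sum_mul, ← hdeg, Finsupp.degree_apply]
  have h2 : (algebraMap ℂ (Polynomial ℂ)) (coeff m F) = Polynomial.C (coeff m F) := rfl
  rw [h2]
  exact (Polynomial.natDegree_C_mul_le _ _).trans h1

theorem yc_eval_aeval {κ : Type} (F : MvPolynomial κ ℂ) (x : κ → Polynomial ℂ) (T : ℂ) :
    (aeval x F : Polynomial ℂ).eval T = eval (fun o => (x o).eval T) F := by
  have h : (Polynomial.evalRingHom T).comp
      ((aeval x : MvPolynomial κ ℂ →ₐ[ℂ] Polynomial ℂ) : MvPolynomial κ ℂ →+* Polynomial ℂ) =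
      eval (fun o => (x o).eval T) := by
    apply MvPolynomial.ringHom_ext
    · intro r; simp
    · intro i; simp
  exact congrArg (fun φ : MvPolynomial κ ℂ →+* ℂ => φ F) h

/-- Homogeneous evaluation of a form in polynomials. -/
theorem yc_hev {κ : Type} {a d : ℕ} {F : MvPolynomial κ ℂ} (hF : HomE a F)
    {x : κ → Polynomial ℂ} (hx : ∀ o, (x o).natDegree ≤ d) (s t : ℂ) :
    hev (a * d) (aeval x F) s t = eval (hevv d x s t) F := by
  have key : (fun s => hev (a * d) (aeval x F) s t) = fun s => eval (hevv d x s t) F := by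
    apply yc_zero_of_ne (yc_continuous_hev _ _ _)
    · have h1 : Continuous fun s => hevv d x s t :=
        continuous_pi fun i => yc_continuous_hev d (x i) t
      exact (MvPolynomial.continuous_eval F).comp h1
    · intro s hs
      have h2 : hevv d x s t = s ^ d • fun o => (x o).eval (t / s) := by
        funext o
        rw [hevv, hev_of_ne (hx o) hs]; rfl
      rw [h2, hF, hev_of_ne (yc_natDegree hF hx) hs, yc_eval_aeval, ← pow_mul, mul_comm a d]
  exact congrFun key s

/-- Polynomials without a common zero generate the unit ideal. -/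
theorem yc_bezout {J : Type} [Fintype J] (p : J → Polynomial ℂ)
    (h : ∀ T : ℂ, ∃ j, (p j).eval T ≠ 0) : ∃ c : J → Polynomial ℂ, ∑ j, c j * p j = 1 := by
  classical
  have h1 : Ideal.span (Set.range p) = ⊤ := by
    by_contra hne
    obtain ⟨M, hM, hle⟩ := Ideal.exists_le_maximal _ hne
    have hpr : Submodule.IsPrincipal M := IsPrincipalIdealRing.principal M
    obtain ⟨g, hg⟩ := hpr
    have hg' : M = Ideal.span {g} := hg
    have hgu : ¬ IsUnit g := by
      intro hu
      exact hM.ne_top (by rw [hg', Ideal.span_singleton_eq_top]; exact hu)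
    have hgdeg : g.degree ≠ 0 := by
      intro h0
      exact hgu (Polynomial.isUnit_iff_degree_eq_zero.2 h0)
    obtain ⟨T, hT⟩ := IsAlgClosed.exists_root g hgdeg
    obtain ⟨j, hj⟩ := h T
    apply hj
    have hmem : p j ∈ M := hle (Ideal.subset_span ⟨j, rfl⟩)
    rw [hg', Ideal.mem_span_singleton] at hmem
    obtain ⟨q, hq⟩ := hmem
    rw [hq, Polynomial.eval_mul, hT, zero_mul]
  have h2 : (1 : Polynomial ℂ) ∈ Ideal.span (Set.range p) := by rw [h1]; trivial
  rw [Ideal.span, Submodule.mem_span_range_iff_exists_fun] at h2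
  obtain ⟨c, hc⟩ := h2
  exact ⟨c, by simpa [smul_eq_mul] using hc⟩

theorem yc_mor_eval {d : ℕ} {κ : Type} {x : κ → Polynomial ℂ} (h : Mor d x) (T : ℂ) :
    ∃ j, (x j).eval T ≠ 0 := by
  have h1 := h.ne 1 T (by simp)
  obtain ⟨j, hj⟩ := Function.ne_iff.1 h1
  refine ⟨j, ?_⟩
  rw [hevv, hev_one (h.deg j)] at hj
  exact hj

theorem yc_mor_deg {d : ℕ} {κ : Type} {x : κ → Polynomial ℂ} (h : Mor d x) :
    ∃ j, (x j).natDegree = d ∧ x j ≠ 0 := by
  have h1 := h.ne 0 1 (by simp)
  obtain ⟨j, hj⟩ := Function.ne_iff.1 h1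
  rw [hevv, hev_zero_left, one_pow, mul_one] at hj
  have hj' : (x j).coeff d ≠ 0 := hj
  refine ⟨j, le_antisymm (h.deg j) (Polynomial.le_natDegree_of_ne_zero hj'), ?_⟩
  rintro e
  rw [e] at hj'
  simp at hj'

theorem st_YC (hFAC1 : ST_FAC1) : ST_YC := by
  classical
  intro D hD e y he hy hmem hinf
  obtain ⟨d₁, d₂, x, η, hd, hx, hη, hxy⟩ := hFAC1 (Option (Fin D.w)) D.ν e y hy (by
    intro s t
    obtain ⟨x, η, h, -⟩ := hmem s t
    exact ⟨x, η, h⟩)
  have hfd := hD.fd
  have hval : ∀ s t, hevv e y s t = seg (hevv d₁ x s t) (hevv d₂ η s t) := by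
    intro s t
    funext p
    rw [hevv, show y p = x p.1 * η p.2 from hxy p.1 p.2, ← hd, hev_mul (hx.deg _) (hη.deg _)]
    rfl
  have hsyz : ∀ s t : ℂ, (s, t) ≠ (0, 0) → Syz D.F (hevv d₁ x s t) (hevv d₂ η s t) := by
    intro s t hst
    refine syz_of_seg_mem hfd.hom ?_ (hx.ne s t hst) (hη.ne s t hst)
    rw [← hval]
    exact hmem s t
  -- the values of the forms
  set f : D.ν → Polynomial ℂ := fun j => aeval x (D.F j) with hf
  have hfdeg : ∀ j, (f j).natDegree ≤ D.a * d₁ := fun j => yc_natDegree (hfd.hom j) hx.deg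
  have hfval : ∀ j T, (f j).eval T = eval (fun o => (x o).eval T) (D.F j) :=
    fun j T => yc_eval_aeval _ _ _
  have hfhev : ∀ j s t, hev (D.a * d₁) (f j) s t = eval (hevv d₁ x s t) (D.F j) :=
    fun j s t => yc_hev (hfd.hom j) hx.deg s t
  have hkos : ∀ i j, f i * η j = f j * η i := by
    intro i j
    apply Polynomial.funext
    intro T
    have h1 := (hsyz 1 T (by simp)).koszul i j
    have h2 : hevv d₁ x 1 T = fun o => (x o).eval T := by
      funext o
      rw [hevv, hev_one (hx.deg o)]
    have h3 : ∀ k, hevv d₂ η 1 T k = (η k).eval T := fun k => by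
      rw [hevv, hev_one (hη.deg k)]
    rw [h2, h3, h3, ← hfval, ← hfval] at h1
    rw [Polynomial.eval_mul, Polynomial.eval_mul]
    exact h1
  -- the factor `g`
  obtain ⟨c, hc⟩ := yc_bezout η (yc_mor_eval hη)
  obtain ⟨b, hb⟩ := yc_bezout (fun o => x o ^ (D.a - 1)) (by
    intro T
    obtain ⟨o, ho⟩ := yc_mor_eval hx T
    exact ⟨o, by rw [Polynomial.eval_pow]; exact pow_ne_zero _ ho⟩)
  set g : Polynomial ℂ := ∑ j, c j * f j with hg
  have hfg : ∀ i, f i = g * η i := by
    intro i
    rw [hg, Finset.sum_mul]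
    calc f i = f i * ∑ j, c j * η j := by rw [hc, mul_one]
      _ = ∑ j, c j * f j * η i := by
        rw [Finset.mul_sum]
        refine Finset.sum_congr rfl fun j _ => ?_
        calc f i * (c j * η j) = c j * (f i * η j) := by ring
          _ = c j * (f j * η i) := by rw [hkos i j]
          _ = c j * f j * η i := by ring
  have hx0 : x none ≠ 0 := by
    obtain ⟨s, t, j, hj⟩ := hinf
    intro h0
    apply hj
    rw [hval, seg_apply, hevv, h0, hev_zero, zero_mul]
  have hg0 : g ≠ 0 := by
    intro h0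
    obtain ⟨T, hT⟩ : ∃ T, (x none).eval T ≠ 0 := by
      by_contra hn
      push Not at hn
      exact hx0 (Polynomial.funext fun T => by rw [hn T, Polynomial.eval_zero])
    have h1 := (hfd.zero (fun o => (x o).eval T)).1 (by
      intro j
      rw [← hfval, hfg j, h0, zero_mul, Polynomial.eval_zero])
    exact hT h1.1
  -- divisibility
  have hdiv1 : ∀ o, ∃ η' : Polynomial ℂ, η'.natDegree ≤ d₂ ∧
      x none * x o ^ (D.a - 1) = g * η' := by
    intro o
    have h1 := hfd.span (X o ^ (D.a - 1)) (by
      have := (homE_X o : HomE 1 (X o : MvPolynomial (Option (Fin D.w)) ℂ)).pow (D.a - 1)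
      rwa [one_mul] at this)
    rw [Submodule.mem_span_range_iff_exists_fun] at h1
    obtain ⟨r, hr⟩ := h1
    refine ⟨∑ j, Polynomial.C (r j) * η j, ?_, ?_⟩
    · refine Polynomial.natDegree_sum_le_of_forall_le _ _ fun j _ => ?_
      exact (Polynomial.natDegree_C_mul_le _ _).trans (hη.deg j)
    · have h2 := congrArg (aeval x : MvPolynomial (Option (Fin D.w)) ℂ →ₐ[ℂ] Polynomial ℂ) hr
      rw [map_sum, map_mul, map_pow, aeval_X, aeval_X] at h2
      rw [← h2, Finset.mul_sum]
      refine Finset.sum_congr rfl fun j _ => ?_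
      rw [map_smul, Polynomial.smul_eq_C_mul]
      change Polynomial.C (r j) * f j = _
      rw [hfg j]; ring
  have hgdvd : g ∣ x none := by
    have h1 : x none = ∑ o, b o * (x none * x o ^ (D.a - 1)) := by
      calc x none = x none * ∑ o, b o * x o ^ (D.a - 1) := by rw [hb, mul_one]
        _ = _ := by
          rw [Finset.mul_sum]
          exact Finset.sum_congr rfl fun o _ => by ring
    rw [h1]
    refine Finset.dvd_sum fun o _ => ?_
    obtain ⟨η', -, h2⟩ := hdiv1 o
    rw [h2]
    exact Dvd.dvd.mul_left (Dvd.intro _ rfl) _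
  obtain ⟨q, hq⟩ := hgdvd
  have hq0 : q ≠ 0 := by
    rintro rfl
    rw [mul_zero] at hq
    exact hx0 hq
  have hdegx : (x none).natDegree = g.natDegree + q.natDegree := by
    rw [hq, Polynomial.natDegree_mul hg0 hq0]
  obtain ⟨o, ho, ho0⟩ := yc_mor_deg hx
  obtain ⟨η', hη', heq⟩ := hdiv1 o
  have hη'0 : η' ≠ 0 := by
    rintro rfl
    rw [mul_zero] at heq
    exact (mul_ne_zero hx0 (pow_ne_zero _ ho0)) heq
  have hdeg2 : (x none).natDegree + (D.a - 1) * d₁ = g.natDegree + η'.natDegree := by
    rw [← Polynomial.natDegree_mul hg0 hη'0, ← heq,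
      Polynomial.natDegree_mul hx0 (pow_ne_zero _ ho0), Polynomial.natDegree_pow, ho]
  have ha2 := hfd.two_le
  have hle : (D.a - 1) * d₁ ≤ d₂ := by omega
  rcases Nat.eq_zero_or_pos d₁ with hd1 | hd1
  · -- constant case
    left
    obtain ⟨j, hj, hj0⟩ := yc_mor_deg hη
    have h1 := hfdeg j
    rw [hfg j, Polynomial.natDegree_mul hg0 hj0, hj, hd1] at h1
    omega
  · right
    have hd1' : d₁ = 1 := by
      have h1 : (D.a - 1) * d₁ + d₁ ≤ D.a := by omega
      have h2 : (D.a - 1) * d₁ + d₁ = D.a * d₁ := by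
        obtain ⟨a', ha'⟩ : ∃ a', D.a = a' + 1 := ⟨D.a - 1, by omega⟩
        rw [ha', Nat.add_sub_cancel]; ring
      rw [h2] at h1
      have h3 : d₁ ≤ 1 := by
        by_contra h4
        push Not at h4
        have : D.a * 2 ≤ D.a * d₁ := Nat.mul_le_mul_left _ h4
        omega
      omega
    subst hd1'
    rw [mul_one] at hle hdeg2
    have hd2 : d₂ = D.a - 1 := by omega
    have hea : e = D.a := by omega
    refine ⟨hea, ?_⟩
    have hqd : q.natDegree = 0 := by omega
    obtain ⟨c', hc'⟩ := Polynomial.natDegree_eq_zero.1 hqd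
    have hc'0 : c' ≠ 0 := by
      rintro rfl
      apply hq0
      rw [← hc', Polynomial.C_0]
    have hgx : g = Polynomial.C c'⁻¹ * x none := by
      rw [hq, ← hc', mul_comm g, ← mul_assoc, ← Polynomial.C_mul, inv_mul_cancel₀ hc'0,
        Polynomial.C_1, one_mul]
    -- the line
    have hlin : ∀ s t : ℂ, hevv 1 x s t =
        s • (fun o => (x o).coeff 0) + t • (fun o => (x o).coeff 1) := by
      intro s t
      funext o
      simp only [hevv, hev, Pi.add_apply, Pi.smul_apply, smul_eq_mul]
      rw [Finset.sum_range_succ, Finset.sum_range_one]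
      simp
      ring
    have hgdeg : g.natDegree ≤ 1 := by
      have := hx.deg none
      omega
    have hFval : ∀ s t : ℂ, ∀ j, eval (hevv 1 x s t) (D.F j) =
        c'⁻¹ * hev 1 (x none) s t * hevv d₂ η s t j := by
      intro s t j
      have h1 := hfhev j s t
      rw [mul_one] at h1
      rw [← h1, hfg j, show D.a = 1 + d₂ by omega, hev_mul hgdeg (hη.deg j), hgx, hev_C_mul]
      rfl
    have hxn : ∀ s t : ℂ, hev 1 (x none) s t = s * (x none).coeff 0 + t * (x none).coeff 1 := by
      intro s t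
      have := congrFun (hlin s t) none
      simpa [hevv] using this
    refine ⟨fun o => (x o).coeff 0, fun o => (x o).coeff 1, c'⁻¹, inv_ne_zero hc'0, ?_, ?_, ?_, ?_⟩
    · rw [LinearIndependent.pair_iff]
      intro s t hst
      by_contra hn
      apply hx.ne s t
      · intro h0
        apply hn
        simpa using h0
      · rw [hlin, hst]
    · by_contra hn
      push Not at hn
      apply hx0
      apply Polynomial.funext
      intro T
      rw [← hev_one (hx.deg none), hxn, hn.1, hn.2]
      simp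
    · set s₀ := (x none).coeff 1 with hs₀
      set t₀ := -(x none).coeff 0 with ht₀
      have h1 : hev 1 (x none) s₀ t₀ = 0 := by
        rw [hxn, hs₀, ht₀]; ring
      have h2 := (hfd.zero (hevv 1 x s₀ t₀)).1 (by
        intro j
        rw [hFval, h1, mul_zero, zero_mul])
      have h3 := h2.2
      have h4 : (fun i => hevv 1 x s₀ t₀ (some i)) = fun i =>
          (x none).coeff 1 * (x (some i)).coeff 0 - (x none).coeff 0 * (x (some i)).coeff 1 := by
        funext i
        rw [hlin]
        simp only [Pi.add_apply, Pi.smul_apply, smul_eq_mul, hs₀, ht₀]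
        ring
      rw [h4] at h3
      exact h3
    · intro s t
      rw [← hlin, hval]
      rw [VD.gr]
      have h1 : ev D.F (hevv 1 x s t) =
          (c'⁻¹ * (s * (x none).coeff 0 + t * (x none).coeff 1)) • hevv d₂ η s t := by
        funext j
        rw [ev, hFval, hxn]
        rfl
      rw [h1, seg_smul_right]

end Pool.Agent.Helper87.VM
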